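import Pool.Agent.H25.Equi

set_option autoImplicit false

namespace Pool.Agent.Results.MP_89a31a_co.Cex

open Pool.Agent.H25.Equi

/-- Strongly equistable graphs are not closed under substitution. -/
theorem result : ∃ (G : SimpleGraph (Fin 26)) (H : SimpleGraph (Fin 2)) (v : Fin 26),
    StronglyEquistable G ∧ StronglyEquistable H ∧ ¬ StronglyEquistable (subst G v H) :=
  ⟨G, ⊤, 0, G_se, K2, not_se⟩

end Pool.Agent.Results.MP_89a31a_co.Cex
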